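import Pool.Agent.R709.DP.Main

/-!
A connected graph of order 11 and detour diameter 10 whose detour position number is at least 3.
-/

set_option autoImplicit false

namespace Pool.Agent.Results.MP_da5e02_co.DetourCounter

open Pool.Agent.R709.DP

/-- There is a connected graph of order `n = 11` with detour diameter `D = 10` whose detour
position number is at least `3`, hence larger than `n - D + 1 = 2`. -/
theorem result : ∃ G : SimpleGraph (Fin 11), G.Connected ∧ detourDiam G = 10 ∧ 3 ≤ dp G ∧
    Fintype.card (Fin 11) - detourDiam G + 1 < dp G := by
  refine ⟨G11, conn, detourDiam_eq, dp_ge, ?_⟩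
  rw [detourDiam_eq]
  have := dp_ge
  simp only [Fintype.card_fin]
  omega

end Pool.Agent.Results.MP_da5e02_co.DetourCounter
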